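import Mathlib

set_option autoImplicit false

namespace Pool.Agent.Results.MP_70387e_co.NonRegular

def f (i j : ℤ) : ℤ := (2 * i + 4 * j + if i % 11 = 0 ∧ j % 11 = 0 then 11 else 0) % 121 + 1

lemma key (i j t u v w : ℤ) (hi : 1 ≤ i ∧ i ≤ 121) (hj : 1 ≤ j ∧ j ≤ 121)
    (hi' : 1 ≤ i + t * u ∧ i + t * u ≤ 121) (hj' : 1 ≤ j + t * v ∧ j + t * v ≤ 121) (ht : t ≠ 0)
    (hu : u = -1 ∨ u = 0 ∨ u = 1) (hv : v = -1 ∨ v = 0 ∨ v = 1) (hw : w = -1 ∨ w = 0 ∨ w = 1)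
    (h0 : ¬ (u = 0 ∧ v = 0 ∧ w = 0)) : f (i + t * u) (j + t * v) ≠ f i j + t * w := by
  have hA : ∀ i j : ℤ, ∃ e : ℤ, (if i % 11 = 0 ∧ j % 11 = 0 then 11 else 0 : ℤ) = 11 * e := by
    intro i j
    split_ifs
    · exact ⟨1, rfl⟩
    · exact ⟨0, rfl⟩
  intro h
  unfold f at h
  have hd : (121 : ℤ) ∣ t * (2 * u + 4 * v - w) +
      ((if (i + t * u) % 11 = 0 ∧ (j + t * v) % 11 = 0 then 11 else 0 : ℤ) -
        (if i % 11 = 0 ∧ j % 11 = 0 then 11 else 0 : ℤ)) := by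
    generalize (if (i + t * u) % 11 = 0 ∧ (j + t * v) % 11 = 0 then 11 else 0 : ℤ) = A at h ⊢
    generalize (if i % 11 = 0 ∧ j % 11 = 0 then 11 else 0 : ℤ) = B at h ⊢
    have e : t * (2 * u + 4 * v - w) = 2 * (t * u) + 4 * (t * v) - t * w := by ring
    rw [e]
    generalize t * u = a at h ⊢
    generalize t * v = b at h ⊢
    generalize t * w = c at h ⊢
    omega
  by_cases huv : u = 0 ∧ v = 0
  · obtain ⟨rfl, rfl⟩ := huv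
    simp only [mul_zero, add_zero] at h
    rcases hw with rfl | rfl | rfl <;> omega
  have hb : -121 < t ∧ t < 121 := by
    rcases hu with rfl | rfl | rfl <;> rcases hv with rfl | rfl | rfl <;> omega
  clear h hi hj hi' hj'
  have h11 : (11 : ℤ) ∣ t := by
    obtain ⟨e1, h1⟩ := hA (i + t * u) (j + t * v)
    obtain ⟨e2, h2⟩ := hA i j
    rw [h1, h2] at hd
    clear h1 h2 hb
    rcases hu with rfl | rfl | rfl <;> rcases hv with rfl | rfl | rfl <;>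
      rcases hw with rfl | rfl | rfl <;> omega
  obtain ⟨s, rfl⟩ := h11
  rw [mul_assoc 11 s u, mul_assoc 11 s v, Int.add_mul_emod_self_left, Int.add_mul_emod_self_left,
    sub_self] at hd
  rcases hu with rfl | rfl | rfl <;> rcases hv with rfl | rfl | rfl <;>
    rcases hw with rfl | rfl | rfl <;> omega

theorem result : ∃ n : ℕ, 1 ≤ n ∧ ∃ S : Finset (ℤ × ℤ × ℤ), S.card = n ^ 2 ∧
    (∀ x ∈ S, (1 ≤ x.1 ∧ x.1 ≤ n) ∧ (1 ≤ x.2.1 ∧ x.2.1 ≤ n) ∧ (1 ≤ x.2.2 ∧ x.2.2 ≤ n)) ∧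
    (∀ x ∈ S, ∀ y ∈ S, x ≠ y → ¬ ∃ t u v w : ℤ, t ≠ 0 ∧
      (u = -1 ∨ u = 0 ∨ u = 1) ∧ (v = -1 ∨ v = 0 ∨ v = 1) ∧ (w = -1 ∨ w = 0 ∨ w = 1) ∧
      ¬ (u = 0 ∧ v = 0 ∧ w = 0) ∧ y - x = (t * u, t * v, t * w)) ∧
    ¬ ∃ a b c : ℤ, ∀ x ∈ S, x.2.2 ≡ a * x.1 + b * x.2.1 + c [ZMOD n] := by
  let S : Finset (ℤ × ℤ × ℤ) :=
    (Finset.Icc (1 : ℤ) 121 ×ˢ Finset.Icc (1 : ℤ) 121).image fun p => (p.1, p.2, f p.1 p.2)
  have mem : ∀ x, x ∈ S ↔ (1 ≤ x.1 ∧ x.1 ≤ 121) ∧ (1 ≤ x.2.1 ∧ x.2.1 ≤ 121) ∧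
      x.2.2 = f x.1 x.2.1 := by
    rintro ⟨i, j, k⟩
    simp only [S, Finset.mem_image, Finset.mem_product, Finset.mem_Icc, Prod.mk.injEq]
    constructor
    · rintro ⟨⟨a, b⟩, ⟨h1, h2⟩, rfl, rfl, rfl⟩
      exact ⟨h1, h2, rfl⟩
    · rintro ⟨h1, h2, rfl⟩
      exact ⟨(i, j), ⟨h1, h2⟩, rfl, rfl, rfl⟩
  have hcard : S.card = 121 ^ 2 := by
    rw [Finset.card_image_of_injective]
    · simp
    · rintro ⟨a, b⟩ ⟨c, d⟩ h
      simp only [Prod.mk.injEq] at h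
      rw [h.1, h.2.1]
  clear_value S
  refine ⟨121, by norm_num, S, hcard, ?_, ?_, ?_⟩
  · intro x hx
    obtain ⟨h1, h2, h3⟩ := (mem x).1 hx
    refine ⟨h1, h2, ?_⟩
    rw [h3]; unfold f; push_cast; omega
  · rintro ⟨i, j, k⟩ hx ⟨i', j', k'⟩ hy - ⟨t, u, v, w, ht, hu, hv, hw, h0, h⟩
    obtain ⟨a1, a2, a3⟩ := (mem _).1 hx
    obtain ⟨b1, b2, b3⟩ := (mem _).1 hy
    simp only [Prod.mk_sub_mk, Prod.mk.injEq] at h a1 a2 a3 b1 b2 b3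
    obtain ⟨c1, c2, c3⟩ := h
    have e1 : i' = i + t * u := by linarith
    have e2 : j' = j + t * v := by linarith
    subst e1 e2
    exact key i j t u v w a1 a2 b1 b2 ht hu hv hw h0 (by linarith)
  · rintro ⟨a, b, c, h⟩
    have h1 := h (10, 11, f 10 11) ((mem _).2 (by simp))
    have h2 := h (11, 11, f 11 11) ((mem _).2 (by simp))
    have h3 := h (12, 11, f 12 11) ((mem _).2 (by simp))
    have e1 : f 10 11 = 65 := by decide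
    have e2 : f 11 11 = 78 := by decide
    have e3 : f 12 11 = 69 := by decide
    simp only [e1, e2, e3, Int.ModEq] at h1 h2 h3
    push_cast at h1 h2 h3
    omega

end Pool.Agent.Results.MP_70387e_co.NonRegular
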